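import Mathlib
import Pool.Agent.H32.PolySieve

namespace Pool.Agent.Results.MP_2ce53a_nt.OnlyIf

open Pool.Agent.H32.PolySieve

/-- The `m`-gonal number with argument `x`. -/
def P (m x : ℕ) : ℤ := (((m : ℤ) - 2) * (x : ℤ) ^ 2 - ((m : ℤ) - 4) * x) / 2

/-- Generalized polygonal numbers of the problem. -/
def G (z : ℤ) : ℤ := (3 * z ^ 2 - z) / 2

def Universal (j k : ℕ) : Prop :=
  ∀ n : ℕ, ∃ (z : ℤ) (x y : ℕ), (n : ℤ) = G z + P j x + P k y

/-- The list of pairs in the problem. -/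
def listed : List (ℕ × ℕ) := 
  [(3, 3), (3, 4), (3, 5), (3, 6), (3, 7), (3, 8), (3, 9), (3, 10), (3, 11), (3, 12), (3, 13),
   (3, 14), (3, 15), (3, 16), (3, 17), (3, 18), (3, 19), (3, 20), (3, 22), (3, 24), (3, 25),
   (3, 28), (3, 29), (3, 30), (3, 32), (3, 37), (4, 4), (4, 5), (4, 6), (4, 7), (4, 8), (4, 9),
   (4, 10), (4, 11), (4, 12), (4, 13), (4, 15), (4, 16), (4, 18), (4, 20), (4, 21), (4, 22),
   (4, 23), (4, 24), (4, 25), (4, 27), (4, 28), (4, 31), (4, 33), (4, 34), (5, 6), (5, 7),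
   (5, 8), (5, 9), (5, 10), (5, 11), (5, 12), (5, 20), (6, 7), (6, 8), (6, 9), (6, 10), (7, 9),
   (7, 11), (8, 10), (9, 11)]

/-- The extra pairs that are not excluded. -/
def extra : List (ℕ × ℕ) := [(3, 57)]

def al (j k : ℕ) : Bool := (listed ++ extra).any fun t => Nat.beq t.1 j && Nat.beq t.2 k

theorem chk : check 5 al = true := by decide +kernel

theorem small : ∀ t ∈ listed ++ extra, t.1 < 70 ∧ t.2 < 70 := by decide +kernel

theorem result (j k : ℕ) (hj : 3 ≤ j) (hjk : j ≤ k) (h : Universal j k) :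
    (j, k) ∈ listed ∨ (j, k) ∈ extra := by
  have h1 := main 5 (by norm_num) al chk j k hj hjk (fun n => by
    obtain ⟨z, x, y, e⟩ := h n
    refine ⟨z, x, y, ?_⟩
    rw [e]; unfold G P
    congr 3
    push_cast; ring)
  unfold al at h1
  simp only [List.any_eq_true, Bool.and_eq_true, Nat.beq_eq] at h1
  obtain ⟨⟨a, b⟩, ht, e1, e2⟩ := h1
  have hs := small _ ht
  simp only at e1 e2 hs
  have e3 : a = j := by omega
  have e4 : b = k := by omega
  subst e3 e4
  exact List.mem_append.mp ht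

end Pool.Agent.Results.MP_2ce53a_nt.OnlyIf
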